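import Mathlib
import Pool.Agent.H744R2.KZ.Props

open scoped ComplexOrder InnerProductSpace ComplexConjugate Topology
open Finset Filter

noncomputable section

namespace H744R2.KZ

open H759R2.Kad

universe u

theorem prove_L_cc : L_cc.{u} := by
  intro H _ _ _ M q hq hqq
  set K0 : Submodule ℂ H := Submodule.span ℂ {x | ∃ a ∈ M, ∃ ξ : H, x = a (q ξ)} with hK0
  set K : Submodule ℂ H := K0.topologicalClosure with hK
  haveI : CompleteSpace K := K0.isClosed_topologicalClosure.completeSpace_coe
  have hgen : ∀ a ∈ M, ∀ ξ : H, a (q ξ) ∈ K := fun a ha ξ =>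
    K0.le_topologicalClosure (Submodule.subset_span ⟨a, ha, ξ, rfl⟩)
  have key : ∀ (y : H →L[ℂ] H) (L : Submodule ℂ H), IsClosed (L : Set H) →
      (∀ a ∈ M, ∀ ξ, y (a (q ξ)) ∈ L) → ∀ x ∈ K, y x ∈ L := by
    intro y L hL hy x hx
    have h1 : K0 ≤ L.comap (y : H →ₗ[ℂ] H) := by
      rw [hK0, Submodule.span_le]
      rintro _ ⟨a, ha, ξ, rfl⟩
      exact hy a ha ξ
    have h2 : IsClosed ((L.comap (y : H →ₗ[ℂ] H) : Submodule ℂ H) : Set H) := hL.preimage y.continuous
    exact K0.topologicalClosure_minimal h1 h2 hx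
  have hKc : IsClosed (K : Set H) := K0.isClosed_topologicalClosure
  have hrange : (K.starProjection : H →L[ℂ] H).range = K := Submodule.range_starProjection K
  have hr : K.starProjection ∈ M := by
    rw [VonNeumannAlgebra.IsStarProjection.mem_iff (isStarProjection_starProjection)]
    intro y hy
    rw [hrange]
    intro x hx
    rw [VonNeumannAlgebra.mem_commutant_iff] at hy
    apply key y K hKc _ x hx
    intro a ha ξ
    have h1 : y (a (q ξ)) = a (q (y ξ)) := by
      have e1 := congrArg (fun T : H →L[ℂ] H => T ξ) (hy (a * q) (mul_mem ha hq))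
      simpa using e1.symm
    rw [h1]
    exact hgen a ha _
  have hr' : K.starProjection ∈ M.commutant := by
    rw [VonNeumannAlgebra.IsStarProjection.mem_iff (isStarProjection_starProjection)]
    intro y hy
    rw [VonNeumannAlgebra.commutant_commutant] at hy
    rw [hrange]
    intro x hx
    apply key y K hKc _ x hx
    intro a ha ξ
    exact hgen (y * a) (mul_mem hy ha) ξ
  rw [VonNeumannAlgebra.mem_commutant_iff] at hr'
  have hsp : IsStarProjection (K.starProjection) := isStarProjection_starProjection
  refine ⟨K.starProjection, ⟨?_, hr, fun a ha => (hr' a ha).symm⟩, ?_, ?_⟩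
  · exact ⟨hsp.isSelfAdjoint, hsp.isIdempotentElem⟩
  · ext ξ
    have h1 : q ξ ∈ K := by simpa using hgen 1 (one_mem M) ξ
    exact Submodule.starProjection_eq_self_iff.2 h1
  · intro x hx
    ext ξ
    have h6 := key x ⊥ (by simp) (by
      intro a ha ξ
      have := congrArg (fun T : H →L[ℂ] H => T ξ) (hx a ha)
      simpa using this) (K.starProjection ξ) (Submodule.starProjection_apply_mem K ξ)
    simpa using h6

end H744R2.KZ
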