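import Mathlib
import Pool.Agent.H744R2.KZ.Props

open scoped ComplexOrder InnerProductSpace ComplexConjugate Topology
open Finset Filter

noncomputable section

namespace H744R2.KZ

open H759R2.Kad

universe u

theorem prove_X_comp (h1 : L_cc.{u}) (h2 : L_max.{u}) : X_comp.{u} := by
  intro H _ _ _ M p hp q hq hpp hqq
  obtain ⟨v, hv, hpi, hvp, hqv, hmax⟩ := h2 H M p hp q hq hpp hqq
  have hsv : star v ∈ M := star_mem hv
  have hpsv : p * star v = star v := by
    have := congrArg star hvp
    rwa [star_mul, hpp.1] at this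
  have hpi' : v * star v * v = v := hpi
  have hp' : IsPr (p - star v * v) := by
    refine ⟨?_, ?_⟩
    · rw [star_sub, star_mul, star_star, hpp.1]
    · have e1 : p * (star v * v) = star v * v := by rw [← mul_assoc, hpsv]
      have e2 : star v * v * p = star v * v := by rw [mul_assoc, hvp]
      have e3 : star v * v * (star v * v) = star v * v := by
        rw [mul_assoc, ← mul_assoc v, hpi']
      rw [sub_mul, mul_sub, mul_sub, hpp.2, e1, e2, e3, sub_self, sub_zero]
  have hp'M : p - star v * v ∈ M := sub_mem hp (mul_mem hsv hv)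
  obtain ⟨c, hc, hcp', hcx⟩ := h1 H M (p - star v * v) hp'M hp'
  have hxc : (q - v * star v) * c = 0 := hcx _ hmax
  have hcc : c * c = c := hc.1.2
  have hcen : ∀ a ∈ M, c * a = a * c := hc.2.2
  have hz : IsCP M (1 - c) := by
    refine ⟨⟨?_, ?_⟩, sub_mem (one_mem M) hc.2.1, ?_⟩
    · rw [star_sub, star_one, hc.1.1]
    · rw [sub_mul, mul_sub, mul_sub, hcc]
      simp
    · intro a ha
      rw [sub_mul, mul_sub, one_mul, mul_one, hcen a ha]
  have hzz : (1 - c) * (1 - c) = 1 - c := hz.1.2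
  have hzs : star (1 - c) = 1 - c := hz.1.1
  have hzcen : ∀ a ∈ M, (1 - c) * a = a * (1 - c) := hz.2.2
  have hzp : (1 - c) * p = (1 - c) * (star v * v) := by
    have e : (1 - c) * (p - star v * v) = 0 := by
      rw [sub_mul, one_mul, hcp', sub_self]
    rw [mul_sub] at e
    exact sub_eq_zero.1 e
  have hcq : c * q = c * (v * star v) := by
    have e : c * (q - v * star v) = 0 := by
      rw [hcen _ (sub_mem hq (mul_mem hv hsv)), hxc]
    rw [mul_sub] at e
    exact sub_eq_zero.1 e
  refine ⟨1 - c, hz, (1 - c) * v, mul_mem hz.2.1 hv, c * star v, mul_mem hc.2.1 hsv, ?_, ?_, ?_, ?_⟩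
  · rw [star_mul, hzs, hzp, mul_assoc, ← mul_assoc (1 - c) (1 - c) v, hzz, ← mul_assoc,
      ← hzcen (star v) hsv, mul_assoc]
  · rw [mul_assoc, ← mul_assoc q, ← hzcen q hq, mul_assoc, hqv, ← mul_assoc, hzz]
  · rw [sub_sub_cancel, hcq, star_mul, star_star, hc.1.1, mul_assoc, ← mul_assoc c c, hcc,
      ← mul_assoc, ← hcen v hv, mul_assoc]
  · rw [sub_sub_cancel, mul_assoc, ← mul_assoc p, ← hcen p hp, mul_assoc, hpsv, ← mul_assoc, hcc]

end H744R2.KZ
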